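import Mathlib
import Pool.Agent.Q233.EW
import Pool.Agent.Q233.EW3

/-!
# MP_472e54_mp, Q1: a mirrored pair of optimal witnesses that is not locally unitarily related

On `ℂ³ ⊗ ℂ³` the witnesses `W3 = 14 - T3` and `M3 = 14 + T3` form a mirrored pair of optimal
entanglement witnesses. The spectrum of `T3` is `{29, 29, 11, 11, -1, -16, -19, -19, -25}`, so the
two witnesses do not even have the same spectrum.
-/

namespace Pool.Agent.Results.MP_472e54_mp.AsymmetricMirroredPair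

open Matrix Q233.EW
open scoped Kronecker ComplexOrder

/-- `25` is not an eigenvalue of `T3`. -/
lemma T3_no25 (v : Fin 3 × Fin 3 → ℂ) (h : T3 *ᵥ v = (25 : ℂ) • v) : v = 0 := by
  have key : ∀ p, (T3 *ᵥ v) p = 25 * v p := by
    intro p; rw [h]; rfl
  have h00 := key (0, 0)
  have h11 := key (1, 1)
  have h22 := key (2, 2)
  have h10 := key (1, 0)
  have h21 := key (2, 1)
  have h02 := key (0, 2)
  have h20 := key (2, 0)
  have h01 := key (0, 1)
  have h12 := key (1, 2)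
  simp only [T3, dd, tt, dotProduct, mulVec, Fintype.sum_prod_type, Fin.sum_univ_three,
    Matrix.of_apply,
    show (0 : Fin 3) - 0 = 0 from rfl, show (0 : Fin 3) - 1 = 2 from rfl,
    show (0 : Fin 3) - 2 = 1 from rfl, show (1 : Fin 3) - 0 = 1 from rfl,
    show (1 : Fin 3) - 1 = 0 from rfl, show (1 : Fin 3) - 2 = 2 from rfl,
    show (2 : Fin 3) - 0 = 2 from rfl, show (2 : Fin 3) - 1 = 1 from rfl,
    show (2 : Fin 3) - 2 = 0 from rfl,
    show ((0 : Fin 3) = 1) = False by decide, show ((0 : Fin 3) = 2) = False by decide,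
    show ((1 : Fin 3) = 0) = False by decide, show ((1 : Fin 3) = 2) = False by decide,
    show ((2 : Fin 3) = 0) = False by decide, show ((2 : Fin 3) = 1) = False by decide,
    if_true, if_false, zero_mul, add_zero, zero_add,
    Matrix.cons_val_zero, Matrix.cons_val_one, Matrix.cons_val]
    at h00 h11 h22 h10 h21 h02 h20 h01 h12
  -- block 0
  have s0 : v (0, 0) + v (1, 1) + v (2, 2) = 0 := by
    linear_combination (-1 / 50 : ℂ) * (h00 + h11 + h22)
  have s1 : v (1, 0) + v (2, 1) + v (0, 2) = 0 := by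
    linear_combination (-1 / 41 : ℂ) * (h10 + h21 + h02)
  have s2 : v (2, 0) + v (0, 1) + v (1, 2) = 0 := by
    linear_combination (-1 / 26 : ℂ) * (h20 + h01 + h12)
  have v00 : v (0, 0) = 0 := by linear_combination (1 / 4 : ℂ) * h00 + (18 / 4 : ℂ) * s0
  have v11 : v (1, 1) = 0 := by linear_combination (1 / 4 : ℂ) * h11 + (18 / 4 : ℂ) * s0
  have v22 : v (2, 2) = 0 := by linear_combination (1 / 4 : ℂ) * h22 + (18 / 4 : ℂ) * s0
  have v10 : v (1, 0) = 0 := by linear_combination (-1 / 14 : ℂ) * h10 - (9 / 14 : ℂ) * s1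
  have v21 : v (2, 1) = 0 := by linear_combination (-1 / 14 : ℂ) * h21 - (9 / 14 : ℂ) * s1
  have v02 : v (0, 2) = 0 := by linear_combination (-1 / 14 : ℂ) * h02 - (9 / 14 : ℂ) * s1
  have v20 : v (2, 0) = 0 := by linear_combination (-1 / 44 : ℂ) * h20 + (6 / 44 : ℂ) * s2
  have v01 : v (0, 1) = 0 := by linear_combination (-1 / 44 : ℂ) * h01 + (6 / 44 : ℂ) * s2
  have v12 : v (1, 2) = 0 := by linear_combination (-1 / 44 : ℂ) * h12 + (6 / 44 : ℂ) * s2
  ext ⟨j, k⟩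
  fin_cases j <;> fin_cases k <;> assumption

/-- `|00⟩ + |11⟩ + |22⟩` is an eigenvector of `T3` with eigenvalue `-25`. -/
lemma T3_vM : T3 *ᵥ vM = (-25 : ℂ) • vM := by
  ext ⟨j, k⟩
  simp only [vM, mulVec_add, mulVec_single, Pi.add_apply, Pi.smul_apply, smul_eq_mul]
  fin_cases j <;> fin_cases k <;> simp [T3, dd, tt] <;> norm_num

lemma vM_ne : vM ≠ 0 := by
  intro h
  have := congrFun h (0, 0)
  simp [vM] at this

lemma unitary_mul {ι : Type} [Fintype ι] [DecidableEq ι] {U : Matrix ι ι ℂ}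
    (hU : U ∈ Matrix.unitaryGroup ι ℂ) : Uᴴ * U = 1 := by
  rw [Matrix.mem_unitaryGroup_iff'] at hU
  exact hU

lemma unitary_mul' {ι : Type} [Fintype ι] [DecidableEq ι] {U : Matrix ι ι ℂ}
    (hU : U ∈ Matrix.unitaryGroup ι ℂ) : U * Uᴴ = 1 := by
  rw [Matrix.mem_unitaryGroup_iff] at hU
  exact hU

/-- The two witnesses are not even related by a global unitary. -/
lemma not_unitary : ¬ ∃ L ∈ Matrix.unitaryGroup (Fin 3 × Fin 3) ℂ, M3 = L * W3 * Lᴴ := by
  rintro ⟨L, hLu, h⟩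
  have hLL : Lᴴ * L = 1 := unitary_mul hLu
  have hLL' : L * Lᴴ = 1 := unitary_mul' hLu
  -- the eigenvector
  have hM : M3 *ᵥ vM = (-11 : ℂ) • vM := by
    rw [M3, add_mulVec, smul_mulVec, one_mulVec, T3_vM, ← add_smul]
    norm_num
  have h1 : W3 *ᵥ (Lᴴ *ᵥ vM) = (-11 : ℂ) • (Lᴴ *ᵥ vM) := by
    have h2 : Lᴴ * M3 = W3 * Lᴴ := by
      rw [h]
      calc Lᴴ * (L * W3 * Lᴴ) = (Lᴴ * L) * W3 * Lᴴ := by simp only [mul_assoc]
        _ = W3 * Lᴴ := by rw [hLL, one_mul]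
    rw [mulVec_mulVec, ← h2, ← mulVec_mulVec, hM, mulVec_smul]
  have h3 : T3 *ᵥ (Lᴴ *ᵥ vM) = (25 : ℂ) • (Lᴴ *ᵥ vM) := by
    rw [W3, sub_mulVec, smul_mulVec, one_mulVec] at h1
    have h4 : T3 *ᵥ (Lᴴ *ᵥ vM) = (14 : ℂ) • (Lᴴ *ᵥ vM) - (-11 : ℂ) • (Lᴴ *ᵥ vM) := by
      rw [← h1]; abel
    rw [h4, ← sub_smul]
    norm_num
  have h5 := T3_no25 _ h3
  apply vM_ne
  have h6 : L *ᵥ (Lᴴ *ᵥ vM) = vM := by
    rw [mulVec_mulVec, hLL', one_mulVec]
  rw [← h6, h5, mulVec_zero]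

lemma kron_unitary {U V : Matrix (Fin 3) (Fin 3) ℂ} (hU : U ∈ Matrix.unitaryGroup (Fin 3) ℂ)
    (hV : V ∈ Matrix.unitaryGroup (Fin 3) ℂ) :
    U ⊗ₖ V ∈ Matrix.unitaryGroup (Fin 3 × Fin 3) ℂ := by
  rw [Matrix.mem_unitaryGroup_iff, star_eq_conjTranspose, conjTranspose_kronecker,
    ← Matrix.mul_kronecker_mul, unitary_mul' hU, unitary_mul' hV, Matrix.one_kronecker_one]

/-- **MP_472e54_mp, Q1 (answer: yes).** On `ℂ³ ⊗ ℂ³` there is a mirrored pair `(W, M)` of optimal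
entanglement witnesses that are not related by local unitaries, and not even by any unitary of
`ℂ³ ⊗ ℂ³` (their spectra differ). -/
theorem result : ∃ W M : Matrix (Fin 3 × Fin 3) (Fin 3 × Fin 3) ℂ,
    IsMirroredOptimalPair W M ∧ ¬ LocallyUnitarilyRelated W M ∧
      ¬ ∃ L ∈ Matrix.unitaryGroup (Fin 3 × Fin 3) ℂ, M = L * W * Lᴴ := by
  refine ⟨W3, M3, ⟨W3_optimal, M3_optimal, 28, ?_⟩, ?_, not_unitary⟩
  · rw [W3, M3, sub_add_add_cancel, ← add_smul]
    norm_num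
  · rintro ⟨U, hU, V, hV, h⟩
    exact not_unitary ⟨U ⊗ₖ V, kron_unitary hU hV, h⟩

end Pool.Agent.Results.MP_472e54_mp.AsymmetricMirroredPair
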